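import Pool.Agent.Helper17.IA.StV

/-!
# Project IA, module FDC: the final decomposition
-/

set_option autoImplicit false

namespace Pool.Agent.Helper29.IA

open Finset Pool.Agent.Helper93.IA Pool.Agent.Helper17.IA

private theorem cov {β ι : Type} [DecidableEq β] [DecidableEq ι] (A Q : Finset β)
    (S : Finset ι) (X : ι → Finset β) (i0 : ι) (hi : i0 ∈ S) (hX : ∀ i ∈ S, X i ⊆ A)
    (hQ : Q ⊆ A \ S.biUnion X) :
    Q ∪ ((X i0 ∪ ((A \ S.biUnion X) \ Q)) ∪ (S.erase i0).biUnion X) = A := by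
  ext e
  constructor
  · intro he
    rcases Finset.mem_union.1 he with h | h
    · exact (Finset.mem_sdiff.1 (hQ h)).1
    · rcases Finset.mem_union.1 h with h | h
      · rcases Finset.mem_union.1 h with h | h
        · exact hX i0 hi h
        · exact (Finset.mem_sdiff.1 (Finset.mem_sdiff.1 h).1).1
      · obtain ⟨i, hi', hei⟩ := Finset.mem_biUnion.1 h
        exact hX i (Finset.mem_of_mem_erase hi') hei
  · intro he
    by_cases hq : e ∈ Q
    · exact Finset.mem_union_left _ hq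
    · refine Finset.mem_union_right _ ?_
      by_cases hu : e ∈ S.biUnion X
      · obtain ⟨i, hi', hei⟩ := Finset.mem_biUnion.1 hu
        by_cases h0 : i = i0
        · subst h0
          exact Finset.mem_union_left _ (Finset.mem_union_left _ hei)
        · exact Finset.mem_union_right _
            (Finset.mem_biUnion.2 ⟨i, Finset.mem_erase.2 ⟨h0, hi'⟩, hei⟩)
      · exact Finset.mem_union_left _ (Finset.mem_union_right _
          (Finset.mem_sdiff.2 ⟨Finset.mem_sdiff.2 ⟨he, hu⟩, hq⟩))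

private theorem disj1 {β ι : Type} [DecidableEq β] [DecidableEq ι] (A Q : Finset β)
    (S : Finset ι) (X : ι → Finset β) (i0 : ι) (hi : i0 ∈ S)
    (hd : ∀ i ∈ S, ∀ j ∈ S, i ≠ j → Disjoint (X i) (X j)) :
    Disjoint (X i0 ∪ ((A \ S.biUnion X) \ Q)) ((S.erase i0).biUnion X) := by
  rw [Finset.disjoint_left]
  intro e he h
  obtain ⟨i, hi', hei⟩ := Finset.mem_biUnion.1 h
  obtain ⟨hne, hiS⟩ := Finset.mem_erase.1 hi'
  rcases Finset.mem_union.1 he with h1 | h1
  · exact (Finset.disjoint_left.1 (hd i0 hi i hiS (Ne.symm hne))) h1 hei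
  · exact (Finset.mem_sdiff.1 (Finset.mem_sdiff.1 h1).1).2
      (Finset.mem_biUnion.2 ⟨i, hiS, hei⟩)

private theorem disj2 {β ι : Type} [DecidableEq β] [DecidableEq ι] (A Q : Finset β)
    (S : Finset ι) (X : ι → Finset β) (i0 : ι) (hi : i0 ∈ S)
    (hQ : Q ⊆ A \ S.biUnion X) :
    Disjoint Q ((X i0 ∪ ((A \ S.biUnion X) \ Q)) ∪ (S.erase i0).biUnion X) := by
  rw [Finset.disjoint_left]
  intro e he h
  have hnu := (Finset.mem_sdiff.1 (hQ he)).2
  rcases Finset.mem_union.1 h with h | h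
  · rcases Finset.mem_union.1 h with h | h
    · exact hnu (Finset.mem_biUnion.2 ⟨i0, hi, h⟩)
    · exact (Finset.mem_sdiff.1 h).2 he
  · obtain ⟨i, hi', hei⟩ := Finset.mem_biUnion.1 h
    exact hnu (Finset.mem_biUnion.2 ⟨i, Finset.mem_of_mem_erase hi', hei⟩)

theorem hFDC : StFDC := by
  intro hPKU n A B C S XA XB XC P hX hD hP hmem
  obtain ⟨-, hU2, hU3⟩ := hPKU (Fin n) (Fin n) (Fin n)
  have hQA : P.image eA ⊆ A \ S.biUnion XA := by
    intro e he
    obtain ⟨T, hT, rfl⟩ := Finset.mem_image.1 he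
    exact hP.sA T hT
  have hQB : P.image eB ⊆ B \ S.biUnion XB := by
    intro e he
    obtain ⟨T, hT, rfl⟩ := Finset.mem_image.1 he
    exact hP.sB T hT
  have hQC : P.image eC ⊆ C \ S.biUnion XC := by
    intro e he
    obtain ⟨T, hT, rfl⟩ := Finset.mem_image.1 he
    exact hP.sC T hT
  have hdP : Dec (P.image eA) (P.image eB) (P.image eC) :=
    ⟨P, ⟨fun T hT => Finset.mem_image_of_mem _ hT, fun T hT => Finset.mem_image_of_mem _ hT,
      fun T hT => Finset.mem_image_of_mem _ hT, hP.iA, hP.iB, hP.iC⟩, rfl, rfl, rfl⟩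
  obtain ⟨L0, hL0⟩ : ∃ L0 : Finset (Fin n × Fin n) × Finset (Fin n × Fin n) ×
      Finset (Fin n × Fin n), L0 = ((A \ S.biUnion XA) \ P.image eA,
        (B \ S.biUnion XB) \ P.image eB, (C \ S.biUnion XC) \ P.image eC) := ⟨_, rfl⟩
  rw [← hL0] at hmem
  have h1 : Dec (XA L0 ∪ ((A \ S.biUnion XA) \ P.image eA))
      (XB L0 ∪ ((B \ S.biUnion XB) \ P.image eB))
      (XC L0 ∪ ((C \ S.biUnion XC) \ P.image eC)) := by
    have h := (hX L0 hmem).2.2.2.2
    have e1 : L0.1 = (A \ S.biUnion XA) \ P.image eA := by rw [hL0]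
    have e2 : L0.2.1 = (B \ S.biUnion XB) \ P.image eB := by rw [hL0]
    have e3 : L0.2.2 = (C \ S.biUnion XC) \ P.image eC := by rw [hL0]
    rw [e1, e2, e3] at h
    exact h
  have h2 : Dec ((S.erase L0).biUnion XA) ((S.erase L0).biUnion XB)
      ((S.erase L0).biUnion XC) :=
    hU3 _ (S.erase L0) XA XB XC
      (fun L hL => (hX L (Finset.mem_of_mem_erase hL)).2.2.2.1)
      (fun L hL L' hL' hne => hD L (Finset.mem_of_mem_erase hL) L'
        (Finset.mem_of_mem_erase hL') hne)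
  have h3 := hU2 _ _ _ _ _ _
    (disj1 A (P.image eA) S XA L0 hmem fun i hi j hj hne => (hD i hi j hj hne).1)
    (disj1 B (P.image eB) S XB L0 hmem fun i hi j hj hne => (hD i hi j hj hne).2.1)
    (disj1 C (P.image eC) S XC L0 hmem fun i hi j hj hne => (hD i hi j hj hne).2.2) h1 h2
  have h4 := hU2 _ _ _ _ _ _ (disj2 A (P.image eA) S XA L0 hmem hQA)
    (disj2 B (P.image eB) S XB L0 hmem hQB) (disj2 C (P.image eC) S XC L0 hmem hQC) hdP h3
  rw [cov A _ S XA L0 hmem (fun i hi => (hX i hi).1) hQA,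
    cov B _ S XB L0 hmem (fun i hi => (hX i hi).2.1) hQB,
    cov C _ S XC L0 hmem (fun i hi => (hX i hi).2.2.1) hQC] at h4
  exact h4

end Pool.Agent.Helper29.IA
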